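import Pool.Agent.ASD.Stmts4
import Pool.Agent.Helper90_ASO.CPG

/-!
# Squad ASD, row TFV: sums of the numbers `T5` over `w`
-/

open scoped BigOperators

noncomputable section

namespace Pool.Agent.PP.SD.H2

open Pool.Agent.Helper51_AWC Pool.Agent.Helper79_WRA Pool.Agent.PP Pool.Agent.PP.KF
open Pool.Agent.PP.K9 Pool.Agent.PP.K9.H97 Pool.Agent.PP.H75 Pool.Agent.PP.T3 Pool.Agent.PP.SO
open Pool.Agent.PP.SO.H90

attribute [local instance] Ideal.Quotient.field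

theorem zpowers_eq {V₀ : Type} [CommGroup V₀] [Finite V₀] {ℓ : ℕ} [Fact ℓ.Prime]
    (hex : ∀ v : V₀, v ^ ℓ = 1) {A : Subgroup V₀} (hA : Nat.card A = ℓ) {w : V₀} (hw : w ∈ A)
    (h1 : w ≠ 1) : Subgroup.zpowers w = A := by
  apply Subgroup.eq_of_le_of_card_ge
  · rw [Subgroup.zpowers_le]
    exact hw
  · rw [hA, Nat.card_zpowers, orderOf_eq_prime (hex w) h1]

theorem sum_mod {ℓ : ℕ} (hp : ℓ.Prime) {j : ℕ} (hj : ¬ ℓ ∣ j) (F : ℕ → ℂ) :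
    ∑ i ∈ Finset.Icc 1 (ℓ - 1), F (j * i % ℓ) = ∑ i ∈ Finset.Icc 1 (ℓ - 1), F i := by
  have hpos := hp.pos
  have hmaps : ∀ i ∈ Finset.Icc 1 (ℓ - 1), j * i % ℓ ∈ Finset.Icc 1 (ℓ - 1) := by
    intro i hi
    rw [Finset.mem_Icc] at hi ⊢
    have h1 : ¬ ℓ ∣ i := fun h => by
      have := Nat.le_of_dvd (by omega) h
      omega
    have h2 : ¬ ℓ ∣ j * i := fun h => by
      rcases hp.dvd_mul.1 h with h | h
      · exact hj h
      · exact h1 h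
    have h3 : j * i % ℓ ≠ 0 := fun h => h2 (Nat.dvd_of_mod_eq_zero h)
    have h4 := Nat.mod_lt (j * i) hpos
    omega
  have hinj : Set.InjOn (fun i => j * i % ℓ) (Finset.Icc 1 (ℓ - 1) : Finset ℕ) := by
    intro a ha b hb hab
    rw [Finset.mem_coe, Finset.mem_Icc] at ha hb
    have h1 : j * a ≡ j * b [MOD ℓ] := hab
    have h2 : a ≡ b [MOD ℓ] := Nat.ModEq.cancel_left_of_coprime
      ((Nat.Prime.coprime_iff_not_dvd hp).2 hj) h1
    have h3 : a % ℓ = b % ℓ := h2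
    rwa [Nat.mod_eq_of_lt (by omega), Nat.mod_eq_of_lt (by omega)] at h3
  have himg : (Finset.Icc 1 (ℓ - 1)).image (fun i => j * i % ℓ) = Finset.Icc 1 (ℓ - 1) := by
    apply Finset.eq_of_subset_of_card_le
    · intro x hx
      rw [Finset.mem_image] at hx
      obtain ⟨i, hi, rfl⟩ := hx
      exact hmaps i hi
    · rw [Finset.card_image_of_injOn hinj]
  conv_rhs => rw [← himg]
  rw [Finset.sum_image hinj]

theorem sup_top {V₀ : Type} [CommGroup V₀] [Finite V₀] {ℓ : ℕ} [Fact ℓ.Prime]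
    {E₀ : Subgroup (MulAut V₀)} {A₁ A₂ : Subgroup V₀} (h : Dx ℓ E₀ A₁ A₂) : A₁ ⊔ A₂ = ⊤ := by
  have hp : ℓ.Prime := Fact.out
  apply Subgroup.eq_top_of_card_eq
  have hd : Nat.card (A₁ ⊔ A₂ : Subgroup V₀) ∣ ℓ ^ 2 := by
    rw [← h.cd]
    exact Subgroup.card_subgroup_dvd_card _
  have h1 : Nat.card A₁ ∣ Nat.card (A₁ ⊔ A₂ : Subgroup V₀) := Subgroup.card_dvd_of_le le_sup_left
  rw [h.c1] at h1
  obtain ⟨k, hk2, hk⟩ := (Nat.dvd_prime_pow hp).1 hd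
  rw [h.cd, hk]
  interval_cases k
  · rw [hk, pow_zero] at h1
    exact absurd (Nat.dvd_one.1 h1) hp.one_lt.ne'
  · exfalso
    have h2 : A₁ = A₁ ⊔ A₂ := by
      apply Subgroup.eq_of_le_of_card_ge le_sup_left
      rw [hk, h.c1, pow_one]
    have h3 : A₂ ≤ A₁ := by
      rw [h2]
      exact le_sup_right
    have h4 := h.ds
    rw [inf_eq_right.2 h3] at h4
    have h5 := h.c2
    rw [h4, Subgroup.card_bot] at h5
    exact hp.one_lt.ne h5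
  · rfl

theorem tfv (tfa : TfaStmt) (tfn : TfnStmt) (tfh : TfhStmt) : TfvStmt := by
  intro ℓ _ M _ hM hℓ V₀ G _ _ _ _ E₀ A₁ A₂ hDx B hB n m r hr hn hPE ρ₁ ρ₂ x₁ x₂ c d F₁₃ F₁₂ K
    h1 h2 hL1 hL2 hρ hFY κ σ hκ hσ u hu hinv
  classical
  have hfin : Fintype V₀ := Fintype.ofFinite _
  have hp : ℓ.Prime := Fact.out
  have hl0 : (ℓ : ℂ) ≠ 0 := by exact_mod_cast hp.ne_zero
  have hFq := hDx.toFq
  set T : Finset V₀ := Finset.univ.filter (fun w => w ∈ A₂ ∧ w ≠ 1) with hT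
  have hmT : ∀ w, w ∈ T ↔ w ∈ A₂ ∧ w ≠ 1 := by
    intro w
    rw [hT, Finset.mem_filter]
    exact ⟨fun h => h.2, fun h => ⟨Finset.mem_univ _, h⟩⟩
  have hset : {w : V₀ | w ∈ A₂ ∧ w ≠ 1} = (T : Set V₀) := by
    ext w
    rw [Finset.mem_coe, hmT]
    rfl
  rw [hset, finsum_mem_coe_finset]
  have hz : ∀ w ∈ T, Subgroup.zpowers w = A₂ := fun w hw =>
    zpowers_eq hFq.ex hDx.c2 ((hmT w).1 hw).1 ((hmT w).1 hw).2
  have hκz : ∀ w ∈ T, κ ∉ Subgroup.zpowers w := by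
    intro w hw
    rw [hz w hw]
    exact hκ
  set I : Finset ℕ := Finset.Icc 1 (ℓ - 1) with hI
  have hI' : ∀ i ∈ I, ¬ ℓ ∣ i := by
    intro i hi h
    rw [hI, Finset.mem_Icc] at hi
    have := Nat.le_of_dvd (by omega) h
    have := hp.pos
    omega
  have hinvI : ∀ i ∈ I, ((i : ℂ))⁻¹ ∈ RM M := fun i hi => inv_nat_RM hp hM (hI' i hi)
  have hI0 : ∀ i ∈ I, (i : ℂ) ≠ 0 := by
    intro i hi h
    apply hI' i hi
    have : i = 0 := by exact_mod_cast h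
    rw [this]
    exact dvd_zero _
  set N : V₀ → ℂ := fun w => ∑ i ∈ I, nI ℓ B m κ w i * ((i : ℂ))⁻¹ with hN
  have hnI : ∀ w ∈ T, ∀ i, nI ℓ B m κ w i ∈ RM M := fun w hw i =>
    (tfn ℓ M hM hℓ V₀ G E₀ hFq B hB n m r hr hn hPE κ w ((hmT w).1 hw).2 (hκz w hw)).1 i
  have huM : ∀ w ∈ T, ((u w : ℚ) : ℂ) ∈ RM M := fun w hw => rl_rm hM (hu w ((hmT w).1 hw).1)
  have hNM : ∀ w ∈ T, N w ∈ RM M := fun w hw =>
    sum_mem fun i hi => mul_mem (hnI w hw i) (hinvI i hi)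
  -- the integers `a w`
  set C : ℤ := x₁ κ⁻¹ * x₂ (σ⁻¹ κ)⁻¹ with hC
  have ha : ∀ w ∈ T, ∃ b : ℤ, x₁ (κ * w)⁻¹ * x₂ (σ⁻¹ (κ * w))⁻¹ = C + ℓ * b := by
    intro w hw
    have hwA := ((hmT w).1 hw).1
    have e1 : ρ₁ (κ * w)⁻¹ = ρ₁ κ⁻¹ := by
      rw [mul_inv, h1 κ⁻¹ w⁻¹, (hρ w⁻¹ (A₂.inv_mem hwA)).1, add_zero]
    have hsw : σ⁻¹ w ∈ A₂ := hDx.s2 σ⁻¹ (E₀.inv_mem hσ) w hwA
    have e2 : ρ₂ (σ⁻¹ (κ * w))⁻¹ = ρ₂ (σ⁻¹ κ)⁻¹ := by
      rw [map_mul, mul_inv, h2 (σ⁻¹ κ)⁻¹ (σ⁻¹ w)⁻¹, (hρ (σ⁻¹ w)⁻¹ (A₂.inv_mem hsw)).2, add_zero]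
    have e3 : ((x₁ (κ * w)⁻¹ * x₂ (σ⁻¹ (κ * w))⁻¹ : ℤ) : ZMod ℓ) = ((C : ℤ) : ZMod ℓ) := by
      rw [hC]
      push_cast
      rw [(hL1 _).1, (hL1 _).1, (hL2 _).1, (hL2 _).1, e1, e2]
    have e4 := (ZMod.intCast_eq_intCast_iff_dvd_sub _ _ _).1 e3.symm
    obtain ⟨b, hb⟩ := e4
    exact ⟨b, by linarith⟩
  have key1 : ∀ w ∈ T, (ℓ : ℂ) * ((u w : ℂ) * T5 B m κ w σ F₁₂) +
      12 * (C : ℂ) * ((u w : ℂ) * N w / ℓ) ∈ RM M := by
    intro w hw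
    obtain ⟨b, hb⟩ := ha w hw
    have hT5 := tfa ℓ M hM hℓ V₀ G E₀ hFq B hB.toSb n m r hr hn hPE ρ₁ ρ₂ x₁ x₂ c d F₁₃ F₁₂ K
      h1 h2 hFY κ w σ ((hmT w).1 hw).2 (hκz w hw)
    rw [hz w hw] at hT5
    have hL := tfh ℓ M hM hℓ V₀ G E₀ hFq B hB.toSb A₂ κ hDx.c2 hκ
    have hnp : ∀ i : ℕ, ∃ z ∈ SOR.Rl ℓ, i ∈ I →
        F₁₂ {s | s.2.2.1 = ((κ * w)⁻¹) ^ (s.2.1 : ℕ) ∧
          s.2.2.2 = ((σ⁻¹ (κ * w))⁻¹) ^ (s.2.1 : ℕ) ∧
          (s.1 : ℕ) ≡ i * (s.2.1 : ℕ) [MOD ℓ]} - (x₁ c⁻¹ * x₂ d⁻¹ : ℤ) / (ℓ : ℚ) ^ 2 =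
        - 12 * (x₁ (κ * w)⁻¹ * x₂ (σ⁻¹ (κ * w))⁻¹ : ℤ) / ((ℓ : ℚ) ^ 2 * i) + z / ℓ := by
      intro i
      by_cases hi : i ∈ I
      · obtain ⟨z, hz, h⟩ := hFY.np (κ * w)⁻¹ (σ⁻¹ (κ * w))⁻¹ i (hI' i hi)
        refine ⟨z, hz, fun _ => ?_⟩
        rw [h]
        ring
      · exact ⟨0, zero_mem _, fun h => absurd h hi⟩
    choose z hzm hz' using hnp
    have hsum : ∑ i₀ ∈ I, ((F₁₂ {s | s.2.2.1 = ((κ * w)⁻¹) ^ (s.2.1 : ℕ) ∧
          s.2.2.2 = ((σ⁻¹ (κ * w))⁻¹) ^ (s.2.1 : ℕ) ∧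
          (s.1 : ℕ) ≡ i₀ * (s.2.1 : ℕ) [MOD ℓ]} - (x₁ c⁻¹ * x₂ d⁻¹ : ℤ) / (ℓ : ℚ) ^ 2 : ℚ) : ℂ) *
          nI ℓ B m κ w i₀ =
        - 12 * ((C : ℂ) + ℓ * b) / ℓ ^ 2 * N w + (∑ i ∈ I, ((z i : ℚ) : ℂ) * nI ℓ B m κ w i) / ℓ := by
      rw [hN, Finset.mul_sum, Finset.sum_div, ← Finset.sum_add_distrib]
      refine Finset.sum_congr rfl fun i hi => ?_
      rw [hz' i hi, hb]
      push_cast
      have := hI0 i hi
      field_simp
    rw [← hI, hsum, hb] at hT5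
    rw [hT5]
    have e : (ℓ : ℂ) * ((u w : ℂ) * (-(((C + ℓ * b : ℤ) : ℂ) / ℓ ^ 2) * L1A B A₂ κ +
        (- 12 * ((C : ℂ) + ℓ * b) / ℓ ^ 2 * N w +
          (∑ i ∈ I, ((z i : ℚ) : ℂ) * nI ℓ B m κ w i) / ℓ))) +
        12 * (C : ℂ) * ((u w : ℂ) * N w / ℓ) =
        - ((u w : ℂ) * ((C + ℓ * b : ℤ) : ℂ) * (L1A B A₂ κ / ℓ)) +
          (- (12 * (b : ℂ) * ((u w : ℂ) * N w)) +
            (u w : ℂ) * ∑ i ∈ I, ((z i : ℚ) : ℂ) * nI ℓ B m κ w i) := by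
      push_cast
      field_simp
      ring
    rw [e]
    have h12 : (12 : ℂ) ∈ RM M := by exact_mod_cast (rr_nat (M := M) 12).1
    exact add_mem (neg_mem (mul_mem (mul_mem (huM w hw) (rr_int (M := M) _).1) hL))
      (add_mem (neg_mem (mul_mem (mul_mem h12 (rr_int (M := M) b).1)
        (mul_mem (huM w hw) (hNM w hw))))
        (mul_mem (huM w hw) (sum_mem fun i _ => mul_mem (rl_rm hM (hzm i)) (hnI w hw i))))
  have key2 : (∑ w ∈ T, (u w : ℂ) * N w) / ℓ ∈ RM M := by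
    rcases hDx.cs with ⟨τ, hτ, hτ1, hτA⟩ | htriv
    · obtain ⟨w₀, hw₀, hne⟩ : ∃ w₀ ∈ A₂, w₀ ≠ 1 := by
        by_contra hcon
        push Not at hcon
        have h3 : A₂ = ⊥ := by
          rw [Subgroup.eq_bot_iff_forall]
          exact hcon
        have h4 := hDx.c2
        rw [h3, Subgroup.card_bot] at h4
        exact hp.one_lt.ne h4
      have hord : orderOf w₀ = ℓ := orderOf_eq_prime (hFq.ex w₀) hne
      have hgen := zpowers_eq hFq.ex hDx.c2 hw₀ hne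
      have hτw : τ w₀ ∈ Subgroup.zpowers w₀ := by
        rw [hgen]
        exact hDx.s2 τ hτ w₀ hw₀
      obtain ⟨k, hk⟩ := Subgroup.mem_zpowers_iff.1 hτw
      have hlz : (0 : ℤ) < ℓ := by exact_mod_cast hp.pos
      obtain ⟨j, hj⟩ : ∃ j : ℕ, (j : ℤ) = k % ℓ :=
        ⟨(k % ℓ).toNat, Int.toNat_of_nonneg (Int.emod_nonneg _ hlz.ne')⟩
      have hjl : j < ℓ := by
        have := Int.emod_lt_of_pos k hlz
        omega
      have hτ0 : τ w₀ = w₀ ^ j := by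
        rw [← hk, ← zpow_mod_orderOf w₀ k, hord, ← hj, zpow_natCast]
      have hτj : ∀ w ∈ A₂, τ w = w ^ j := by
        intro w hw
        rw [← hgen] at hw
        obtain ⟨e, rfl⟩ := Subgroup.mem_zpowers_iff.1 hw
        rw [map_zpow, hτ0, ← zpow_natCast, ← zpow_natCast, ← zpow_mul, ← zpow_mul, mul_comm]
      have hj0 : j ≠ 0 := by
        intro h
        rw [h, pow_zero] at hτ0
        exact hne (τ.injective (hτ0.trans (map_one τ).symm))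
      have hj1 : j ≠ 1 := by
        intro h
        apply hτ1
        ext v
        have hv : v ∈ A₁ ⊔ A₂ := by
          have htop : A₁ ⊔ A₂ = ⊤ := sup_top hDx
          rw [htop]
          exact Subgroup.mem_top _
        obtain ⟨a, ha', b, hb', rfl⟩ := Subgroup.mem_sup.1 hv
        rw [map_mul, hτA a ha', hτj b hb', h, pow_one]
        rfl
      have hlj : ¬ ℓ ∣ j := fun h => by
        have := Nat.le_of_dvd (by omega) h
        omega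
      have hlj1 : ¬ ℓ ∣ (j - 1) := fun h => by
        have := Nat.le_of_dvd (by omega) h
        omega
      have hmem : ∀ w, w ∈ T ↔ τ.toEquiv w ∈ T := by
        intro w
        rw [hmT, hmT]
        have e1 : τ.toEquiv w = τ w := rfl
        rw [e1]
        constructor
        · rintro ⟨ha', hb'⟩
          exact ⟨hDx.s2 τ hτ w ha', fun h => hb' (τ.injective (h.trans (map_one τ).symm))⟩
        · rintro ⟨ha', hb'⟩
          refine ⟨?_, fun h => hb' (by rw [h, map_one])⟩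
          have := hDx.s2 τ⁻¹ (E₀.inv_mem hτ) _ ha'
          rwa [MulAut.inv_apply_self] at this
      have hS1 : ∑ w ∈ T, (u w : ℂ) * N w = ∑ w ∈ T, (u w : ℂ) * N (w ^ j) := by
        symm
        apply Finset.sum_equiv τ.toEquiv hmem
        intro w hw
        have e1 : τ.toEquiv w = τ w := rfl
        have hwA := ((hmT w).1 hw).1
        rw [e1, hinv τ ⟨hτ, hτA⟩ w hwA, hτj w hwA]
      have hNj : ∀ w ∈ T, (j : ℂ) * N (w ^ j) - N w = ℓ * ∑ i ∈ I, nI ℓ B m κ w i *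
          ((((j * i / ℓ : ℕ) : ℂ) * ((i : ℂ))⁻¹) * (((j * i % ℓ : ℕ) : ℂ))⁻¹) := by
        intro w hw
        have e1 : N (w ^ j) = ∑ i ∈ I, nI ℓ B m κ w i * (((j * i % ℓ : ℕ) : ℂ))⁻¹ := by
          have e2 : N (w ^ j) = ∑ i ∈ I, nI ℓ B m κ (w ^ j) (j * i % ℓ) *
              (((j * i % ℓ : ℕ) : ℂ))⁻¹ :=
            (sum_mod hp hlj (fun i => nI ℓ B m κ (w ^ j) i * ((i : ℂ))⁻¹)).symm
          rw [e2]
          refine Finset.sum_congr rfl fun i _ => ?_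
          rw [(tfn ℓ M hM hℓ V₀ G E₀ hFq B hB n m r hr hn hPE κ w ((hmT w).1 hw).2
            (hκz w hw)).2.1 j i (j * i % ℓ) hlj (Nat.mod_modEq _ _)]
        rw [e1, Finset.mul_sum, Finset.mul_sum, hN, ← Finset.sum_sub_distrib]
        refine Finset.sum_congr rfl fun i hi => ?_
        have h3 : (((j * i % ℓ : ℕ) : ℂ)) ≠ 0 := by
          intro h
          have h4 : j * i % ℓ = 0 := by exact_mod_cast h
          rcases hp.dvd_mul.1 (Nat.dvd_of_mod_eq_zero h4) with h5 | h5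
          · exact hlj h5
          · exact hI' i hi h5
        have h5 : (j : ℂ) * i = ℓ * ((j * i / ℓ : ℕ) : ℂ) + ((j * i % ℓ : ℕ) : ℂ) := by
          exact_mod_cast (Nat.div_add_mod (j * i) ℓ).symm
        have h6 := hI0 i hi
        have h7 : (j : ℂ) * (((j * i % ℓ : ℕ) : ℂ))⁻¹ - ((i : ℂ))⁻¹ =
            ℓ * ((((j * i / ℓ : ℕ) : ℂ) * ((i : ℂ))⁻¹) * (((j * i % ℓ : ℕ) : ℂ))⁻¹) := by
          generalize hA : ((j * i % ℓ : ℕ) : ℂ) = a at *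
          generalize hB' : ((j * i / ℓ : ℕ) : ℂ) = b at *
          field_simp
          linear_combination h5
        calc (j : ℂ) * (nI ℓ B m κ w i * (((j * i % ℓ : ℕ) : ℂ))⁻¹) -
              nI ℓ B m κ w i * ((i : ℂ))⁻¹
            = nI ℓ B m κ w i * ((j : ℂ) * (((j * i % ℓ : ℕ) : ℂ))⁻¹ - ((i : ℂ))⁻¹) := by ring
          _ = _ := by rw [h7]; ring
      set R : ℂ := ∑ w ∈ T, (u w : ℂ) * ∑ i ∈ I, nI ℓ B m κ w i *
          ((((j * i / ℓ : ℕ) : ℂ) * ((i : ℂ))⁻¹) * (((j * i % ℓ : ℕ) : ℂ))⁻¹) with hR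
      have hRM : R ∈ RM M := by
        refine sum_mem fun w hw => mul_mem (huM w hw) (sum_mem fun i hi => ?_)
        refine mul_mem (hnI w hw i) (mul_mem (mul_mem (rr_nat (M := M) _).1 (hinvI i hi)) ?_)
        refine inv_nat_RM hp hM fun h => ?_
        have h4 : ℓ ∣ j * i := (Nat.dvd_mod_iff (dvd_refl ℓ)).1 h
        rcases hp.dvd_mul.1 h4 with h5 | h5
        · exact hlj h5
        · exact hI' i hi h5
      have hfin1 : ((j - 1 : ℕ) : ℂ) * ∑ w ∈ T, (u w : ℂ) * N w = ℓ * R := by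
        have h8 : ((j - 1 : ℕ) : ℂ) = (j : ℂ) - 1 := by
          rw [Nat.cast_sub (by omega)]
          simp
        rw [h8, sub_mul, one_mul]
        conv_lhs => rw [hS1]
        rw [hR, Finset.mul_sum, Finset.mul_sum]
        have h9 : ∑ w ∈ T, (u w : ℂ) * N (w ^ j) = ∑ w ∈ T, (u w : ℂ) * N w := hS1.symm
        rw [h9, ← Finset.sum_sub_distrib]
        refine Finset.sum_congr rfl fun w hw => ?_
        have := hNj w hw
        calc (j : ℂ) * ((u w : ℂ) * N (w ^ j)) - (u w : ℂ) * N w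
            = (u w : ℂ) * ((j : ℂ) * N (w ^ j) - N w) := by ring
          _ = _ := by rw [this]; ring
      have hj10 : ((j - 1 : ℕ) : ℂ) ≠ 0 := by
        intro h
        have : j - 1 = 0 := by exact_mod_cast h
        omega
      have e : (∑ w ∈ T, (u w : ℂ) * N w) / ℓ = (((j - 1 : ℕ) : ℂ))⁻¹ * R := by
        rw [div_eq_iff hl0]
        have := hfin1
        rw [← mul_right_inj' hj10, this]
        field_simp
      rw [e]
      exact mul_mem (inv_nat_RM hp hM hlj1) hRM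
    · have h0 : ∑ w ∈ T, (u w : ℂ) * N w = 0 := by
        refine Finset.sum_eq_zero fun w hw => ?_
        have h3 : N w = 0 := by
          refine Finset.sum_eq_zero fun i _ => ?_
          rw [(tfn ℓ M hM hℓ V₀ G E₀ hFq B hB n m r hr hn hPE κ w ((hmT w).1 hw).2
            (hκz w hw)).2.2 (fun s hs => htriv s hs w ((hmT w).1 hw).1) i, zero_mul]
        rw [h3, mul_zero]
      rw [h0, zero_div]
      exact zero_mem _
  have e : (ℓ : ℂ) * ∑ w ∈ T, (u w : ℂ) * T5 B m κ w σ F₁₂ =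
      ∑ w ∈ T, ((ℓ : ℂ) * ((u w : ℂ) * T5 B m κ w σ F₁₂) +
        12 * (C : ℂ) * ((u w : ℂ) * N w / ℓ)) -
      12 * (C : ℂ) * ((∑ w ∈ T, (u w : ℂ) * N w) / ℓ) := by
    rw [Finset.sum_add_distrib, Finset.mul_sum, Finset.sum_div, Finset.mul_sum]
    ring
  rw [e]
  have h12 : (12 : ℂ) ∈ RM M := by exact_mod_cast (rr_nat (M := M) 12).1
  exact sub_mem (sum_mem key1) (mul_mem (mul_mem h12 (rr_int (M := M) C).1) key2)

end Pool.Agent.PP.SD.H2
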